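import Pool.Agent.L7h81.IP.Lower2
import Pool.Agent.L7h81.IP.Irr

/-!
# A volume-maximising ideal polyhedron with eight vertices has an irrational dihedral angle

Klein model of hyperbolic 3-space: the open unit ball of `ℝ³`, ideal points are the unit vectors,
totally geodesic planes are the intersections with affine planes, the convex hull is the
Euclidean one, and the volume form is `dx / (1 - ‖x‖ ^ 2) ^ 2`.
-/

set_option autoImplicit false

namespace Pool.Agent.Results.MP_b9d07b_gt.EightVertices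

open MeasureTheory Set
open scoped ENNReal

/-- Euclidean 3-space; its open unit ball is the Klein model of hyperbolic 3-space -/
abbrev E : Type := EuclideanSpace ℝ (Fin 3)

/-- `V` is the vertex set of an ideal polyhedron with `n` vertices: `n` distinct ideal points
which do not all lie on one round circle, that is, in one affine plane. -/
def IsIdealPolyhedron (n : ℕ) (V : Finset E) : Prop :=
  V.card = n ∧ (∀ v ∈ V, ‖v‖ = 1) ∧ ∀ (a : E) (c : ℝ), a ≠ 0 → ∃ v ∈ V, inner ℝ a v ≠ c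

/-- hyperbolic volume of the polyhedron with vertex set `V` -/
noncomputable def vol (V : Finset E) : ℝ≥0∞ :=
  ∫⁻ x in convexHull ℝ (V : Set E) ∩ Metric.ball 0 1, ENNReal.ofReal (1 / (1 - ‖x‖ ^ 2) ^ 2)

/-- `V` is a volume-maximising ideal polyhedron with `n` vertices -/
def IsVolumeMaximising (n : ℕ) (V : Finset E) : Prop :=
  IsIdealPolyhedron n V ∧ ∀ W, IsIdealPolyhedron n W → vol W ≤ vol V

/-- the plane `⟪a, x⟫ = c` carries a face of `V`, with the polyhedron on the side `⟪a, x⟫ ≤ c` -/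
def IsFace (V : Finset E) (a : E) (c : ℝ) : Prop :=
  a ≠ 0 ∧ (∀ v ∈ V, inner ℝ a v ≤ c) ∧ ∃ S ⊆ V, S.card = 3 ∧ ∀ v ∈ S, inner ℝ a v = c

/-- `θ` is the interior dihedral angle of the polyhedron `V` at an edge: two faces with different
vertex sets share the two distinct vertices `u`, `v`, and `θ` is the interior angle between the
half-spaces `⟪a, x⟫ ≤ c` and `⟪b, x⟫ ≤ d` of hyperbolic space -/
def IsDihedralAngle (V : Finset E) (θ : ℝ) : Prop :=
  ∃ (a b : E) (c d : ℝ) (u v : E), IsFace V a c ∧ IsFace V b d ∧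
    (∃ w ∈ V, inner ℝ a w = c ∧ inner ℝ b w ≠ d) ∧
    u ∈ V ∧ v ∈ V ∧ u ≠ v ∧ inner ℝ a u = c ∧ inner ℝ b u = d ∧ inner ℝ a v = c ∧
    inner ℝ b v = d ∧
    θ = Real.arccos (-(inner ℝ a b - c * d) / (√(‖a‖ ^ 2 - c ^ 2) * √(‖b‖ ^ 2 - d ^ 2)))

open Pool.Agent.L7h81.IP

theorem vol_le (V : Finset E) : vol V ≤ hvol (convexHull ℝ (V : Set E)) :=
  lintegral_mono_set inter_subset_left

theorem vol_eq (V : Finset E) (hV : ∀ v ∈ V, ‖v‖ = 1) :
    vol V = hvol (convexHull ℝ (V : Set E)) := by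
  unfold vol hvol
  apply setLIntegral_congr
  have h0 : volume (Metric.sphere (0 : E) 1) = 0 := Measure.addHaar_sphere _ _ _
  have hsub : convexHull ℝ (V : Set E) ⊆ Metric.closedBall 0 1 := by
    apply convexHull_min _ (convex_closedBall 0 1)
    intro v hv
    rw [mem_closedBall_zero_iff]
    exact (hV v hv).le
  rw [ae_eq_set]
  constructor
  · rw [show (convexHull ℝ (V : Set E) ∩ Metric.ball 0 1) \ convexHull ℝ (V : Set E) = ∅ by
      ext x; simp; tauto]
    exact measure_empty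
  · apply measure_mono_null _ h0
    rintro x ⟨h1, h2⟩
    have h3 := hsub h1
    rw [mem_closedBall_zero_iff] at h3
    rw [mem_sphere_zero_iff_norm]
    apply le_antisymm h3
    by_contra hcon
    push Not at hcon
    exact h2 ⟨h1, by rw [mem_ball_zero_iff]; exact hcon⟩

theorem upper (W : Finset E) (hW : IsIdealPolyhedron 8 W) : vol W ≤ ENNReal.ofReal V0 := by
  obtain ⟨h8, hn, -⟩ := hW
  refine (vol_le W).trans ?_
  have e : (W.equivFin.symm.trans (Equiv.refl _)) = W.equivFin.symm := rfl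
  set x : Fin 8 → E := fun i => (W.equivFin.symm (Fin.cast h8.symm i) : E) with hx
  have hr : range x = (W : Set E) := by
    ext y
    constructor
    · rintro ⟨i, rfl⟩
      exact (W.equivFin.symm (Fin.cast h8.symm i)).2
    · intro hy
      refine ⟨Fin.cast h8 (W.equivFin ⟨y, hy⟩), ?_⟩
      simp [hx]
  rw [← hr]
  exact all_bound x (fun i => hn _ (W.equivFin.symm (Fin.cast h8.symm i)).2)

/-- the planar coordinates of the seven vertices other than the north pole -/
noncomputable def ze : Fin 7 → ℂ :=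
  ![0, ⟨D1, D2⟩, ⟨D1, -D2⟩, ⟨-A1, A2⟩, ⟨-A1, -A2⟩, ⟨s0, 0⟩, ⟨1 / s0, 0⟩]

theorem inj7 (F : Fin 7 → ℝ) (c1 : F 4 < F 3) (c2 : F 3 < F 0) (c3 : F 0 < F 2) (c4 : F 2 < F 1)
    (c5 : F 1 < F 5) (c6 : F 5 < F 6) : Function.Injective F := by
  intro i j hij
  fin_cases i <;> fin_cases j <;> first | rfl | (exfalso; simp at hij; linarith)

theorem sph_inj : Function.Injective sph := by
  intro A B h
  unfold sph at h
  obtain ⟨h1, h2⟩ := mk_inj h
  have pA : 0 < 1 + ‖A‖ ^ 2 := by positivity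
  have pB : 0 < 1 + ‖B‖ ^ 2 := by positivity
  have h3 : ‖A‖ ^ 2 = ‖B‖ ^ 2 := by
    rw [div_eq_div_iff pA.ne' pB.ne'] at h2
    linarith
  rw [h3] at h1
  have h4 : (2 / (1 + ‖B‖ ^ 2) : ℝ) ≠ 0 := by positivity
  exact smul_right_injective ℂ h4 h1

theorem sph_ne_NP (A : ℂ) : sph A ≠ NP := by
  intro h
  unfold sph NP at h
  have h2 := (mk_inj h).2
  have pA : 0 < 1 + ‖A‖ ^ 2 := by positivity
  rw [div_eq_one_iff_eq pA.ne'] at h2
  linarith

theorem s_bounds : 0.658 < s0 ∧ s0 < 0.66 := by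
  have h1 := s0_sq
  have h2 := s0_pos
  have h3 := w13_lo
  have h4 := w13_hi
  constructor <;> nlinarith

theorem ze_inj : Function.Injective ze := by
  have hs := s_bounds
  have hw1 := w13_lo
  have hw2 := w13_hi
  have hsp := s0_pos
  have hA1 : 0.75 < A1 ∧ A1 < 0.76 := by
    unfold A1
    constructor
    · rw [lt_div_iff₀ (by positivity)]; linarith
    · rw [div_lt_iff₀ (by positivity)]; linarith
  have hA2 : 0.65 < A2 ∧ A2 < 0.66 := by
    unfold A2
    constructor <;> linarith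
  have hD1 : 0.52 < D1 ∧ D1 < 0.54 := by
    unfold D1
    constructor
    · rw [lt_div_iff₀ (by positivity)]; linarith
    · rw [div_lt_iff₀ (by positivity)]; linarith
  have hD2 : 0.84 < D2 ∧ D2 < 0.85 := by
    unfold D2
    constructor <;> linarith
  have hb : 1 < 1 / s0 := by
    rw [lt_div_iff₀ hsp]; linarith
  have := inj7 (fun i => (ze i).re + (ze i).im / 100) (by simp [ze]; linarith)
    (by simp [ze]; linarith) (by simp [ze]; linarith) (by simp [ze]; linarith)
    (by simp [ze]; linarith) (by simp only [ze]; simp; rw [one_div] at hb; linarith)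
  intro i j hij
  apply this
  simp only [hij]

theorem xe_eq : xe = Fin.cons NP (fun i => sph (ze i)) := by
  funext i
  fin_cases i <;> rfl

theorem xe_inj : Function.Injective xe := by
  rw [xe_eq, Fin.cons_injective_iff]
  refine ⟨?_, fun i j h => ze_inj (sph_inj h)⟩
  rintro ⟨i, hi⟩
  exact sph_ne_NP _ hi

/-- the vertex set -/
noncomputable def V : Finset E := Finset.univ.map ⟨xe, xe_inj⟩

theorem mem_V {y : E} : y ∈ V ↔ ∃ i, xe i = y := by
  simp [V]

theorem coe_V : (V : Set E) = range xe := by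
  ext y
  rw [Finset.mem_coe, mem_V]
  rfl

theorem norm_V : ∀ v ∈ V, ‖v‖ = 1 := by
  intro v hv
  obtain ⟨i, rfl⟩ := mem_V.1 hv
  rw [xe_eq]
  refine Fin.cases ?_ (fun i => ?_) i
  · exact norm_NP
  · exact norm_sph _

theorem inner_mk (a : E) (w : ℂ) (z : ℝ) : inner ℝ a (mk w z) = a 0 * w.re + a 1 * w.im + a 2 * z := by
  rw [PiLp.inner_apply, Fin.sum_univ_three, mk_zero, mk_one, mk_two]
  simp
  ring

theorem NP_mem : NP ∈ V := mem_V.2 ⟨0, rfl⟩
theorem ze_mem (i : Fin 7) : sph (ze i) ∈ V := mem_V.2 ⟨i.succ, by rw [xe_eq]; rfl⟩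

theorem ideal_V : IsIdealPolyhedron 8 V := by
  refine ⟨by simp [V], norm_V, ?_⟩
  intro a c ha
  by_contra hcon
  push Not at hcon
  apply ha
  have hd1 := D1_pos
  have hd2 := D2_pos
  have hD : ‖(⟨D1, D2⟩ : ℂ)‖ ^ 2 = 1 := by
    rw [norm_sq_C]; linarith [D_norm]
  have hD' : ‖(⟨D1, -D2⟩ : ℂ)‖ ^ 2 = 1 := by
    rw [norm_sq_C]; linarith [D_norm]
  have h0 := hcon _ NP_mem
  have h1 := hcon _ (ze_mem 0)
  have h2 := hcon _ (ze_mem 1)
  have h3 := hcon _ (ze_mem 2)
  have e0 : ze 0 = 0 := rfl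
  have e1 : ze 1 = ⟨D1, D2⟩ := rfl
  have e2 : ze 2 = ⟨D1, -D2⟩ := rfl
  rw [e0] at h1
  rw [e1] at h2
  rw [e2] at h3
  unfold NP at h0
  unfold sph at h1 h2 h3
  rw [inner_mk] at h0 h1 h2 h3
  rw [hD] at h2
  rw [hD'] at h3
  simp only [Complex.zero_re, Complex.zero_im, mul_zero, zero_add, mul_one, norm_zero, ne_eq,
    OfNat.ofNat_ne_zero, not_false_eq_true, zero_pow, smul_zero, add_zero, div_one, zero_sub,
    mul_neg, Complex.smul_re, Complex.smul_im, smul_eq_mul, sub_self, zero_div] at h0 h1 h2 h3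
  have a2 : a 2 = 0 := by linarith
  have hc : c = 0 := by linarith
  rw [hc] at h2 h3
  have a0 : a 0 * D1 = 0 := by linarith
  have a1 : a 1 * D2 = 0 := by linarith
  have a0' : a 0 = 0 := (mul_eq_zero.1 a0).resolve_right hd1.ne'
  have a1' : a 1 = 0 := (mul_eq_zero.1 a1).resolve_right hd2.ne'
  rw [← mk_eta a, a0', a1', a2]
  ext i
  fin_cases i <;> rfl

theorem vol_V : vol V = ENNReal.ofReal V0 := by
  apply le_antisymm (upper V ideal_V)
  rw [vol_eq V norm_V, coe_V]
  exact V0_sum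

/-- the horizontal offset `1 / s - D1` -/
noncomputable def H1 : ℝ := 1 / s0 - D1

theorem face_aux (i : Fin 7) : D2 * (ze i).re + H1 * (ze i).im - D2 / s0 ≤ 0 ∧
    D2 * (ze i).re + -H1 * (ze i).im - D2 / s0 ≤ 0 := by
  have hs := s0_pos
  have hs1 := s0_lt
  have d1 := D1_pos
  have d2 := D2_pos
  have a1 := A1_pos
  have a2 := A2_pos
  have hw1 := w13_lo
  have hw2 := w13_hi
  have hb : 1 < 1 / s0 := by rw [lt_div_iff₀ hs]; linarith
  have hH : H1 = (w13 - 1) / (4 * s0) := by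
    unfold H1 D1; field_simp; ring
  have hH0 : 0 < H1 := by rw [hH]; apply div_pos <;> linarith
  have e1 : H1 * D2 + D2 * D1 = D2 / s0 := by unfold H1; ring
  have e2 : D2 / s0 = D2 * (1 / s0) := by ring
  have p1 := mul_pos hH0 d2
  have p2 := mul_pos d2 d1
  have p3 := mul_pos d2 a1
  have p4 := mul_pos hH0 a2
  have p5 : D2 * s0 < D2 * (1 / s0) := mul_lt_mul_of_pos_left (by linarith) d2
  have p6 : H1 * A2 < D2 / s0 := by
    rw [hH]
    unfold A2 D2
    rw [div_mul_eq_mul_div, div_lt_div_iff₀ (by positivity) hs]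
    have e3 : (w13 - 1) * ((w13 - 1) / 4) = (7 - w13) / 2 := by
      have hw := w13_sq
      nlinarith
    have e4 : 0 < (7 - w13) * s0 := mul_pos (by linarith) hs
    rw [e3]
    linarith
  fin_cases i
  · simp only [ze]
    simp
    have : 0 < D2 / s0 := by positivity
    exact this.le
  · simp only [ze]
    simp
    constructor <;> linarith
  · simp only [ze]
    simp
    constructor <;> linarith
  · simp only [ze]
    simp
    constructor <;> linarith
  · simp only [ze]
    simp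
    constructor <;> linarith
  · simp only [ze]
    simp
    linarith
  · simp only [ze]
    simp
    have : D2 * s0⁻¹ = D2 / s0 := by ring
    linarith

theorem face_inner (p q r : ℝ) (A : ℂ) : inner ℝ (mk ⟨p, q⟩ r) (sph A) - r =
    2 / (1 + ‖A‖ ^ 2) * (p * A.re + q * A.im - r) := by
  have hP : 0 < 1 + ‖A‖ ^ 2 := by positivity
  unfold sph
  rw [inner_mk, mk_zero, mk_one, mk_two, Complex.smul_re, Complex.smul_im, smul_eq_mul, smul_eq_mul]
  field_simp
  ring

theorem face_NP (p q r : ℝ) : inner ℝ (mk ⟨p, q⟩ r) NP = r := by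
  unfold NP
  rw [inner_mk, mk_zero, mk_one, mk_two]
  simp

/-- the two faces -/
theorem isFace_gen (q : ℝ) (k : Fin 7) (hk : k ≠ 6)
    (hle : ∀ i, D2 * (ze i).re + q * (ze i).im - D2 / s0 ≤ 0)
    (hk0 : D2 * (ze k).re + q * (ze k).im - D2 / s0 = 0) :
    IsFace V (mk ⟨D2, q⟩ (D2 / s0)) (D2 / s0) := by
  have d2 := D2_pos
  have hs := s0_pos
  refine ⟨?_, ?_, {NP, sph (ze 6), sph (ze k)}, ?_, ?_, ?_⟩
  · intro h
    have : (mk ⟨D2, q⟩ (D2 / s0)) 0 = 0 := by rw [h]; rfl
    rw [mk_zero] at this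
    exact d2.ne' this
  · intro v hv
    obtain ⟨i, rfl⟩ := mem_V.1 hv
    rw [xe_eq]
    refine Fin.cases ?_ (fun i => ?_) i
    · exact (face_NP _ _ _).le
    · show inner ℝ _ (sph (ze i)) ≤ _
      have h1 := face_inner D2 q (D2 / s0) (ze i)
      have h2 : 2 / (1 + ‖ze i‖ ^ 2) * (D2 * (ze i).re + q * (ze i).im - D2 / s0) ≤ 0 :=
        mul_nonpos_of_nonneg_of_nonpos (by positivity) (hle i)
      linarith
  · intro v hv
    simp only [Finset.mem_insert, Finset.mem_singleton] at hv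
    rcases hv with rfl | rfl | rfl
    · exact NP_mem
    · exact ze_mem 6
    · exact ze_mem k
  · rw [Finset.card_eq_three]
    refine ⟨NP, sph (ze 6), sph (ze k), (sph_ne_NP _).symm, (sph_ne_NP _).symm, ?_, rfl⟩
    intro h
    exact hk (ze_inj (sph_inj h)).symm
  · intro v hv
    simp only [Finset.mem_insert, Finset.mem_singleton] at hv
    rcases hv with rfl | rfl | rfl
    · exact face_NP _ _ _
    · have h1 := face_inner D2 q (D2 / s0) (ze 6)
      have h2 : D2 * (ze 6).re + q * (ze 6).im - D2 / s0 = 0 := by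
        simp only [ze]
        simp
        ring
      rw [h2, mul_zero] at h1
      linarith
    · have h1 := face_inner D2 q (D2 / s0) (ze k)
      rw [hk0, mul_zero] at h1
      linarith

theorem inner_six (q : ℝ) : inner ℝ (mk ⟨D2, q⟩ (D2 / s0)) (sph (ze 6)) = D2 / s0 := by
  have h1 := face_inner D2 q (D2 / s0) (ze 6)
  have h2 : D2 * (ze 6).re + q * (ze 6).im - D2 / s0 = 0 := by
    simp only [ze]
    simp
    ring
  rw [h2, mul_zero] at h1
  linarith

theorem dihedral : IsDihedralAngle V X := by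
  have d2 := D2_pos
  have d1 := D1_pos
  have hs := s0_pos
  have hH : H1 = (w13 - 1) / 2 * Real.cos (X / 2) := by
    rw [cos_half]
    unfold H1 D1; field_simp; ring
  have hD : D2 = (w13 - 1) / 2 * Real.sin (X / 2) := by
    rw [sin_half]
    unfold D2
    have hw2 := w13_sq
    nlinarith
  have hσ : 0 < (w13 - 1) / 2 := by linarith [w13_lo]
  have hH0 : 0 < H1 := by
    rw [hH]
    exact mul_pos hσ (by linarith [cos_half_X])
  have hk1 : D2 * (ze 1).re + H1 * (ze 1).im - D2 / s0 = 0 := by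
    simp only [ze]
    simp
    unfold H1
    ring
  have hk2 : D2 * (ze 2).re + -H1 * (ze 2).im - D2 / s0 = 0 := by
    simp only [ze]
    simp
    unfold H1
    ring
  refine ⟨mk ⟨D2, H1⟩ (D2 / s0), mk ⟨D2, -H1⟩ (D2 / s0), D2 / s0, D2 / s0, NP, sph (ze 6),
    isFace_gen H1 1 (by decide) (fun i => (face_aux i).1) hk1,
    isFace_gen (-H1) 2 (by decide) (fun i => (face_aux i).2) hk2,
    ⟨sph (ze 1), ze_mem 1, ?_, ?_⟩, NP_mem, ze_mem 6, (sph_ne_NP _).symm, face_NP _ _ _,
    face_NP _ _ _, inner_six _, inner_six _, ?_⟩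
  · have h1 := face_inner D2 H1 (D2 / s0) (ze 1)
    rw [hk1, mul_zero] at h1
    linarith
  · intro h
    have h1 := face_inner D2 (-H1) (D2 / s0) (ze 1)
    rw [h, sub_self] at h1
    have h2 : D2 * (ze 1).re + -H1 * (ze 1).im - D2 / s0 = -(2 * (H1 * D2)) := by
      have e1 : H1 * D2 + D2 * D1 = D2 / s0 := by unfold H1; ring
      simp only [ze]
      simp
      linarith
    rw [h2] at h1
    have h3 : 0 < 2 / (1 + ‖ze 1‖ ^ 2) * (2 * (H1 * D2)) := by positivity
    linarith
  · have e1 : inner ℝ (mk ⟨D2, H1⟩ (D2 / s0)) (mk ⟨D2, -H1⟩ (D2 / s0)) - D2 / s0 * (D2 / s0) =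
        D2 ^ 2 - H1 ^ 2 := by
      rw [inner_mk, mk_zero, mk_one, mk_two]
      simp only
      ring
    have e2 : ‖mk ⟨D2, H1⟩ (D2 / s0)‖ ^ 2 - (D2 / s0) ^ 2 = D2 ^ 2 + H1 ^ 2 := by
      rw [norm_mk, norm_sq_C]
      simp only
      ring
    have e3 : ‖mk ⟨D2, -H1⟩ (D2 / s0)‖ ^ 2 - (D2 / s0) ^ 2 = D2 ^ 2 + H1 ^ 2 := by
      rw [norm_mk, norm_sq_C]
      simp only
      ring
    rw [e1, e2, e3, Real.mul_self_sqrt (by positivity)]
    have e4 : -(D2 ^ 2 - H1 ^ 2) / (D2 ^ 2 + H1 ^ 2) = Real.cos X := by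
      have h1 := Real.sin_sq_add_cos_sq (X / 2)
      have h2 := Real.cos_two_mul (X / 2)
      rw [show 2 * (X / 2) = X by ring] at h2
      rw [div_eq_iff (by positivity), hH, hD]
      have h3 : Real.sin (X / 2) ^ 2 = 1 - Real.cos (X / 2) ^ 2 := by linarith
      rw [mul_pow, mul_pow, h3, h2]
      ring
    rw [e4, Real.arccos_cos X_pos.le (by linarith [X_lt, Real.pi_pos])]

/-- There is a volume-maximising ideal polyhedron with eight vertices (of finite volume), one of
whose dihedral angles `θ` satisfies `cos θ = (√13 - 3) / 4`; it is not a rational multiple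
of `π`. -/
theorem result : ∃ V : Finset E, IsVolumeMaximising 8 V ∧ vol V ≠ ⊤ ∧
    ∃ θ : ℝ, IsDihedralAngle V θ ∧ Real.cos θ = (√13 - 3) / 4 ∧ ¬ ∃ q : ℚ, θ = q * Real.pi := by
  refine ⟨V, ⟨ideal_V, fun W hW => ?_⟩, ?_, X, dihedral, cos_X, ?_⟩
  · rw [vol_V]
    exact upper W hW
  · rw [vol_V]
    exact ENNReal.ofReal_ne_top
  · rintro ⟨q, hq⟩
    exact X_irr q hq

end Pool.Agent.Results.MP_b9d07b_gt.EightVertices
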